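import Pool.Agent.X109.LY.Pair

/-!
# A non-minimal M-system that is not Li-Yorke sensitive

The system is the set of all pairs `(y, z)`, `y ∈ {0,1}^ℕ`, `z ∈ ℤ₂`, such that `y_n = 1` and
`2^k ∣ z + n` force `y_{n+1} = ... = y_{n+k} = 0`, with the map `(y, z) ↦ (shift y, z + 1)`.
The point `(1000..., 0)` is isolated in its fibre over the odometer.
-/

set_option autoImplicit false

open Filter Topology Set

namespace Pool.Agent.Results.MP_6bd6f6_an.NotLiYorke

open X109.LY

/-- Topological transitivity: for all nonempty open `U`, `V` there is `n ≥ 0` with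
`U ∩ T^{-n} V ≠ ∅`. -/
def IsTransitive {X : Type} [TopologicalSpace X] (T : X → X) : Prop :=
  ∀ U V : Set X, IsOpen U → IsOpen V → U.Nonempty → V.Nonempty →
    ∃ n : ℕ, (U ∩ T^[n] ⁻¹' V).Nonempty

/-- M-system: transitive with dense minimal points (points lying in minimal sets). -/
def IsMSystem {X : Type} [TopologicalSpace X] (T : X → X) : Prop :=
  IsTransitive T ∧ Dense {x : X | ∃ M : Set X, IsMinimalSet T M ∧ x ∈ M}

/-- Li-Yorke sensitivity. -/
def LiYorkeSensitive {X : Type} [MetricSpace X] (T : X → X) : Prop :=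
  ∃ δ : ℝ, 0 < δ ∧ ∀ x : X, ∀ U ∈ 𝓝 x, ∃ y ∈ U,
    liminf (fun n : ℕ => dist (T^[n] x) (T^[n] y)) atTop = 0 ∧
    δ < limsup (fun n : ℕ => dist (T^[n] x) (T^[n] y)) atTop

noncomputable local instance instBoolMetric3 : MetricSpace (ℕ → Bool) := PiNat.metricSpace

/-- The special point `(1000..., 0)`. -/
noncomputable def p0 : XX := ⟨(fun n => decide (n = 0), 0), by
  intro n k j h1 _ h3 _
  have hn : n = 0 := by simpa using h1
  show decide (n + j = 0) = false
  rw [decide_eq_false_iff_not]; omega⟩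

/-- The point `(000..., 0)`. -/
noncomputable def q0 : XX := ⟨(fun _ => false, 0), by
  intro n k j h1 _ _ _
  exact absurd h1 (by simp)⟩

theorem p0_ne_q0 : p0 ≠ q0 := by
  intro h
  have h1 : p0.1.1 0 = q0.1.1 0 := by rw [h]
  exact absurd h1 (by simp [p0, q0])

theorem transitive_T : IsTransitive T := by
  rintro U V hU hV ⟨p, hp⟩ ⟨q, hq⟩
  obtain ⟨L1, K1, h1⟩ := nbhd p U (hU.mem_nhds hp)
  obtain ⟨L2, K2, h2⟩ := nbhd q V (hV.mem_nhds hq)
  obtain ⟨M, -, p', -, hp', m, -, hm⟩ := pair p q (max L1 L2) (max K1 K2)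
  refine ⟨m, p', h1 p' ⟨fun n hn => hp'.1 n (lt_of_lt_of_le hn (le_max_left _ _)),
    (pow_dvd_pow _ (le_max_left _ _)).trans hp'.2⟩, ?_⟩
  exact h2 _ ⟨fun n hn => hm.1 n (lt_of_lt_of_le hn (le_max_right _ _)),
    (pow_dvd_pow _ (le_max_right _ _)).trans hm.2⟩

theorem dense_minimal : Dense {x : XX | ∃ M : Set XX, IsMinimalSet T M ∧ x ∈ M} := by
  intro p
  rw [mem_closure_iff_nhds]
  intro U hU
  obtain ⟨L, K, h⟩ := nbhd p U hU
  obtain ⟨M, hM, p', hp'M, hp', -⟩ := pair p p L K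
  exact ⟨p', h p' hp', M, hM, hp'M⟩

theorem no_isolated (p : XX) : ¬ IsOpen ({p} : Set XX) := by
  intro hO
  obtain ⟨L, K, h⟩ := nbhd p {p} (hO.mem_nhds rfl)
  obtain ⟨M, -, p', -, hp', m, hm1, hm⟩ := pair p p L K
  have e1 : p' = p := h p' hp'
  have e2 : T^[m] p' = p := h _ hm
  rw [e1] at e2
  have e3 : (T^[m] p).1.2 = p.1.2 := by rw [e2]
  rw [T_iter] at e3
  have e4 : (m : ℤ_[2]) = 0 := by
    have : p.1.2 + (m : ℤ_[2]) = p.1.2 := e3
    simpa using this
  have e5 : m = 0 := by exact_mod_cast e4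
  omega

theorem not_minimal : ¬ IsMinimalSet T (univ : Set XX) := by
  rintro ⟨-, -, -, h⟩
  have h1 := h {q : XX | ∀ n : ℕ, q.1.1 n = false} (subset_univ _) ⟨q0, fun n => rfl⟩ (by
    have e : {q : XX | ∀ n : ℕ, q.1.1 n = false} = ⋂ n : ℕ, {q : XX | q.1.1 n = false} := by
      ext q; simp
    rw [e]
    refine isClosed_iInter fun n => ?_
    have hc : Continuous (fun q : XX => q.1.1 n) :=
      (continuous_apply n).comp (continuous_fst.comp continuous_subtype_val)
    exact (isClosed_discrete ({false} : Set Bool)).preimage hc) (fun x hx n => hx (n + 1))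
  have h2 : p0 ∈ {q : XX | ∀ n : ℕ, q.1.1 n = false} := by rw [h1]; exact mem_univ _
  have h3 := h2 0
  exact absurd h3 (by simp [p0])

theorem dist_ge (x y : XX) (n : ℕ) : ‖x.1.2 - y.1.2‖ ≤ dist (T^[n] x) (T^[n] y) := by
  have h3 : dist (T^[n] x) (T^[n] y)
      = max (dist (T^[n] x).1.1 (T^[n] y).1.1) (dist (T^[n] x).1.2 (T^[n] y).1.2) := rfl
  rw [h3]
  refine le_trans (le_of_eq ?_) (le_max_right _ _)
  rw [dist_eq_norm, T_iter, T_iter]
  show ‖x.1.2 - y.1.2‖ = ‖x.1.2 + n - (y.1.2 + n)‖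
  rw [add_sub_add_right_eq_sub]

theorem not_liYorke : ¬ LiYorkeSensitive T := by
  rintro ⟨δ, hδ, H⟩
  obtain ⟨y, hyU, hinf, hsup⟩ := H p0 {q : XX | Cl 1 0 q p0} (nbhd_mem p0 1 0)
  have hbd : IsBoundedUnder (· ≤ ·) atTop (fun n : ℕ => dist (T^[n] p0) (T^[n] y)) := by
    refine isBoundedUnder_of ⟨Metric.diam (univ : Set XX), fun n => ?_⟩
    exact Metric.dist_le_diam_of_mem isCompact_univ.isBounded (mem_univ _) (mem_univ _)
  have h1 : ‖p0.1.2 - y.1.2‖ ≤ liminf (fun n : ℕ => dist (T^[n] p0) (T^[n] y)) atTop :=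
    le_liminf_of_le hbd.isCoboundedUnder_ge (Eventually.of_forall fun n => dist_ge p0 y n)
  rw [hinf] at h1
  have h2 : y.1.2 = 0 := by
    have h3 : p0.1.2 - y.1.2 = 0 := norm_le_zero_iff.1 h1
    have h4 : p0.1.2 = 0 := rfl
    rw [h4, zero_sub, neg_eq_zero] at h3
    exact h3
  have hy0 : y.1.1 0 = true := by
    rw [hyU.1 0 (by norm_num)]; simp [p0]
  have hy : y = p0 := by
    apply Subtype.ext
    refine Prod.ext ?_ ?_
    · funext j
      show y.1.1 j = decide (j = 0)
      rcases Nat.eq_zero_or_pos j with hj | hj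
      · rw [hj, hy0]; simp
      · have h5 := y.2 0 j j hy0 (by rw [h2]; simp) hj le_rfl
        rw [zero_add] at h5
        rw [h5]; symm; rw [decide_eq_false_iff_not]; omega
    · exact h2
  rw [hy] at hsup
  simp only [dist_self] at hsup
  rw [limsup_const] at hsup
  linarith

/-- There is a compact metric space `X` with more than one point and no isolated points, and a
continuous surjection `T : X → X`, such that `(X, T)` is an M-system, is not minimal and is not
Li-Yorke sensitive. -/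
theorem result : ∃ (X : Type) (_ : MetricSpace X) (T : X → X),
    CompactSpace X ∧ Nontrivial X ∧ (∀ x : X, ¬ IsOpen ({x} : Set X)) ∧
    Continuous T ∧ Function.Surjective T ∧
    IsMSystem T ∧ ¬ IsMinimalSet T univ ∧ ¬ LiYorkeSensitive T :=
  ⟨XX, inferInstance, T, instCompactXX, ⟨p0, q0, p0_ne_q0⟩, no_isolated, continuous_T,
    surjective_T, ⟨transitive_T, dense_minimal⟩, not_minimal, not_liYorke⟩

end Pool.Agent.Results.MP_6bd6f6_an.NotLiYorke
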